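import Mathlib

/-!
# Initial forms divisible by a form

If `f` is a form of degree `M` which divides the power `ρ` of the lowest form of every element of a
space `U` of polynomials of degree less than `s`, then `U` is not larger than the space of all
polynomials of degree less than `s - M / ρ`.
-/

set_option autoImplicit false

namespace Pool.Agent.ALL

open MvPolynomial Module

/-! ### Divisors of powers -/

section Root

variable {R : Type*} [CommRing R]

theorem dvd_gcd_pow [GCDMonoid R] {f a b : R} {ρ : ℕ} (ha : f ∣ a ^ ρ) (hb : f ∣ b ^ ρ) :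
    f ∣ gcd a b ^ ρ := by
  obtain ⟨a', b', e1, e2, hu⟩ := extract_gcd a b
  have h1 : IsRelPrime a' b' := gcd_isUnit_iff_isRelPrime.1 hu
  have h2 : IsRelPrime (a' ^ ρ) (b' ^ ρ) := h1.pow
  have h3 : IsUnit (gcd (a' ^ ρ) (b' ^ ρ)) := gcd_isUnit_iff_isRelPrime.2 h2
  have e1' : a ^ ρ = gcd a b ^ ρ * a' ^ ρ := by
    conv_lhs => rw [e1, mul_pow]
  have e2' : b ^ ρ = gcd a b ^ ρ * b' ^ ρ := by
    conv_lhs => rw [e2, mul_pow]
  have h4 : f ∣ gcd (a ^ ρ) (b ^ ρ) := dvd_gcd ha hb
  rw [e1', e2'] at h4
  have h5 := h4.trans (gcd_mul_left' (gcd a b ^ ρ) (a' ^ ρ) (b' ^ ρ)).dvd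
  exact (h3.dvd_mul_right).1 h5

/-- the smallest `q` such that `f` divides `q ^ ρ` -/
theorem exists_root_divisor [UniqueFactorizationMonoid R] {f : R} (hf : f ≠ 0) {ρ : ℕ}
    (hρ : 1 ≤ ρ) :
    ∃ q : R, q ≠ 0 ∧ f ∣ q ^ ρ ∧ ∀ h : R, f ∣ h ^ ρ → q ∣ h := by
  classical
  let _ : GCDMonoid R := UniqueFactorizationMonoid.toGCDMonoid R
  have hwf : WellFounded (DvdNotUnit : R → R → Prop) := IsWellFounded.wf
  let S : Set R := {h | h ≠ 0 ∧ f ∣ h ^ ρ}
  have hS : S.Nonempty := ⟨f, hf, dvd_pow_self f (by omega)⟩
  refine ⟨hwf.min S hS, (hwf.min_mem S hS).1, (hwf.min_mem S hS).2, fun h hh => ?_⟩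
  set q := hwf.min S hS with hq
  have hqm : q ∈ S := hwf.min_mem S hS
  by_cases h0 : h = 0
  · rw [h0]; exact dvd_zero _
  have hg : f ∣ gcd q h ^ ρ := dvd_gcd_pow hqm.2 hh
  have hg0 : gcd q h ≠ 0 := fun e => hqm.1 ((gcd_eq_zero_iff q h).1 e).1
  by_contra hcon
  have hnot : ¬ q ∣ gcd q h := fun e => hcon (e.trans (gcd_dvd_right q h))
  have hdn : DvdNotUnit (gcd q h) q := dvdNotUnit_of_dvd_of_not_dvd (gcd_dvd_left q h) hnot
  exact hwf.not_lt_min S (x := gcd q h) ⟨hg0, hg⟩ hdn

end Root

/-! ### Highest forms of products -/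

section Forms

variable {σ k : Type*} [Field k]

theorem degree_le_totalDegree {g : MvPolynomial σ k} {u : σ →₀ ℕ} (hu : coeff u g ≠ 0) :
    u.degree ≤ g.totalDegree := by
  have h := le_totalDegree (mem_support_iff.2 hu)
  rw [Finsupp.degree_apply]
  exact h

theorem hc_mul (q t : MvPolynomial σ k) :
    homogeneousComponent (q.totalDegree + t.totalDegree) (q * t) =
      homogeneousComponent q.totalDegree q * homogeneousComponent t.totalDegree t := by
  classical
  ext m
  rw [coeff_homogeneousComponent, coeff_mul, coeff_mul]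
  split_ifs with hm
  · refine Finset.sum_congr rfl fun x hx => ?_
    have hx' : x.1 + x.2 = m := Finset.HasAntidiagonal.mem_antidiagonal.1 hx
    rw [coeff_homogeneousComponent, coeff_homogeneousComponent]
    have hd : x.1.degree + x.2.degree = q.totalDegree + t.totalDegree := by
      rw [← hm, ← hx', map_add]
    by_cases h1 : coeff x.1 q = 0
    · simp [h1]
    by_cases h2 : coeff x.2 t = 0
    · simp [h2]
    have h3 := degree_le_totalDegree h1
    have h4 := degree_le_totalDegree h2
    rw [if_pos (by omega), if_pos (by omega)]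
  · symm
    refine Finset.sum_eq_zero fun x hx => ?_
    have hx' : x.1 + x.2 = m := Finset.HasAntidiagonal.mem_antidiagonal.1 hx
    rw [coeff_homogeneousComponent, coeff_homogeneousComponent]
    by_cases h1 : x.1.degree = q.totalDegree
    · by_cases h2 : x.2.degree = t.totalDegree
      · exfalso
        apply hm
        rw [← hx', map_add, h1, h2]
      · rw [if_neg h2, mul_zero]
    · rw [if_neg h1, zero_mul]

/-- a form divisible by `q` is the product of the highest form of `q` and a form -/
theorem dvd_form {q h : MvPolynomial σ k} {d : ℕ} (hh : h.IsHomogeneous d) (h0 : h ≠ 0)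
    (hq : q ∣ h) : q.totalDegree ≤ d ∧ ∃ t : MvPolynomial σ k,
      t.IsHomogeneous (d - q.totalDegree) ∧ h = homogeneousComponent q.totalDegree q * t := by
  obtain ⟨t, rfl⟩ := hq
  have hq0 : q ≠ 0 := left_ne_zero_of_mul h0
  have ht0 : t ≠ 0 := right_ne_zero_of_mul h0
  have hd : q.totalDegree + t.totalDegree = d := by
    rw [← totalDegree_mul_of_isDomain hq0 ht0]
    exact hh.totalDegree h0
  refine ⟨by omega, homogeneousComponent t.totalDegree t, ?_, ?_⟩
  · have e : d - q.totalDegree = t.totalDegree := by omega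
    rw [e]
    exact homogeneousComponent_isHomogeneous _ _
  · rw [← hc_mul, hd]
    exact (homogeneousComponent_of_mem ((mem_homogeneousSubmodule d _).2 hh) ▸ by simp)

end Forms

/-! ### Dimensions of spaces of forms -/

section Dim

variable {k : Type*} [Field k]

theorem homDim_finite (M m : ℕ) : Finite {d : Fin M →₀ ℕ // d.degree = m} := by
  refine Set.Finite.subset ((Finset.univ : Finset (Fin M)).finsuppAntidiag m).finite_toSet ?_
  intro d hd
  rw [Finset.mem_coe, Finset.mem_finsuppAntidiag]
  refine ⟨?_, Finset.subset_univ _⟩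
  have h : Finsupp.degree d = m := hd
  rw [← h, Finsupp.degree_eq_sum]

theorem homDim_span (M m : ℕ) : homogeneousSubmodule (Fin M) k m =
    Submodule.span k (Set.range fun d : {d : Fin M →₀ ℕ // d.degree = m} =>
      (monomial d.1 (1 : k))) := by
  apply le_antisymm
  · intro p hp
    rw [p.as_sum]
    refine Submodule.sum_mem _ fun d hd => ?_
    have h1 : monomial d (coeff d p) = coeff d p • monomial d (1 : k) := by
      rw [smul_monomial, smul_eq_mul, mul_one]
    rw [h1]
    refine Submodule.smul_mem _ _ (Submodule.subset_span ⟨⟨d, ?_⟩, rfl⟩)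
    have h2 := ((mem_homogeneousSubmodule m p).1 hp) (mem_support_iff.1 hd)
    rwa [Finsupp.degree_eq_weight_one]
  · rw [Submodule.span_le]
    rintro _ ⟨d, rfl⟩
    exact isHomogeneous_monomial _ d.2

theorem homDim_indep (M m : ℕ) : LinearIndependent k
    (fun d : {d : Fin M →₀ ℕ // d.degree = m} => (monomial d.1 (1 : k))) := by
  have h := (MvPolynomial.basisMonomials (Fin M) k).linearIndependent.comp
    (Subtype.val : {d : Fin M →₀ ℕ // d.degree = m} → _) Subtype.val_injective
  simpa [Function.comp_def, MvPolynomial.coe_basisMonomials] using h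

theorem finite_homog (M m : ℕ) : Module.Finite k (homogeneousSubmodule (Fin M) k m) := by
  have := homDim_finite M m
  rw [homDim_span]
  exact Module.Finite.span_of_finite k (Set.finite_range _)

theorem finrank_homog (N m : ℕ) :
    finrank k (homogeneousSubmodule (Fin (N + 1)) k m) = (m + N).choose N := by
  have := homDim_finite (N + 1) m
  have := Fintype.ofFinite {d : Fin (N + 1) →₀ ℕ // d.degree = m}
  rw [homDim_span, finrank_span_eq_card (homDim_indep (N + 1) m)]
  have h1 : Fintype.card {d : Fin (N + 1) →₀ ℕ // d.degree = m} =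
      ((Finset.univ : Finset (Fin (N + 1))).finsuppAntidiag m).card := by
    rw [← Fintype.card_coe]
    refine Fintype.card_congr (Equiv.subtypeEquivRight fun d => ?_)
    rw [Finset.mem_finsuppAntidiag]
    simp [Finsupp.degree_eq_sum]
  rw [h1, Finset.card_finsuppAntidiag_nat_eq_choose, Finset.card_univ, Fintype.card_fin]
  have h2 : N + 1 + m - 1 = m + N := by omega
  rw [h2]
  exact Nat.choose_symm_add

/-- the polynomials of degree less than `s` -/
def polyLt (k : Type*) [Field k] (D s : ℕ) : Submodule k (MvPolynomial (Fin D) k) where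
  carrier := {g | ∀ d, s ≤ d → homogeneousComponent d g = 0}
  add_mem' := by
    intro a b ha hb d hd
    rw [map_add, ha d hd, hb d hd, add_zero]
  zero_mem' := by intro d _; exact map_zero _
  smul_mem' := by
    intro c a ha d hd
    rw [map_smul, ha d hd, smul_zero]

/-- the elements of order at least `d` -/
def ordGe (k : Type*) [Field k] (D d : ℕ) : Submodule k (MvPolynomial (Fin D) k) where
  carrier := {g | ∀ e, e < d → homogeneousComponent e g = 0}
  add_mem' := by
    intro a b ha hb e he
    rw [map_add, ha e he, hb e he, add_zero]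
  zero_mem' := by intro d _; exact map_zero _
  smul_mem' := by
    intro c a ha e he
    rw [map_smul, ha e he, smul_zero]

theorem mem_polyLt {D s : ℕ} {g : MvPolynomial (Fin D) k} :
    g ∈ polyLt k D s ↔ ∀ d, s ≤ d → homogeneousComponent d g = 0 := Iff.rfl

theorem mem_ordGe {D s : ℕ} {g : MvPolynomial (Fin D) k} :
    g ∈ ordGe k D s ↔ ∀ d, d < s → homogeneousComponent d g = 0 := Iff.rfl

theorem eq_zero_of_hc {D : ℕ} {g : MvPolynomial (Fin D) k}
    (h : ∀ d, homogeneousComponent d g = 0) : g = 0 := by
  rw [← sum_homogeneousComponent g]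
  exact Finset.sum_eq_zero fun d _ => h d

theorem polyLt_inf_ordGe {D s : ℕ} : polyLt k D s ⊓ ordGe k D s = ⊥ := by
  rw [eq_bot_iff]
  rintro g ⟨h1, h2⟩
  rw [Submodule.mem_bot]
  refine eq_zero_of_hc fun d => ?_
  rcases Nat.lt_or_ge d s with h | h
  · exact h2 d h
  · exact h1 d h

instance finite_polyLt (D s : ℕ) : Module.Finite k (polyLt k D s) := by
  have h : polyLt k D s ≤ ⨆ d : Fin s, homogeneousSubmodule (Fin D) k d := by
    intro g hg
    rw [← sum_homogeneousComponent g]
    refine Submodule.sum_mem _ fun d _ => ?_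
    by_cases hd : d < s
    · exact Submodule.mem_iSup_of_mem (p := fun d : Fin s => homogeneousSubmodule (Fin D) k d)
        ⟨d, hd⟩ (homogeneousComponent_mem d g)
    · rw [hg d (by omega)]
      exact Submodule.zero_mem _
  have := fun d : Fin s => finite_homog (k := k) D d
  have h2 : Module.Finite k (⨆ d : Fin s, homogeneousSubmodule (Fin D) k d : Submodule k _) :=
    Submodule.finite_iSup _
  exact Submodule.finiteDimensional_of_le h

/-- one step of the filtration by the order -/
theorem finrank_step {D : ℕ} (U : Submodule k (MvPolynomial (Fin D) k)) [Module.Finite k U]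
    (d : ℕ) (w : ℕ)
    (hw : finrank k (Submodule.map (homogeneousComponent d) (U ⊓ ordGe k D d)) = w) :
    finrank k (U ⊓ ordGe k D d : Submodule k (MvPolynomial (Fin D) k)) =
      w + finrank k (U ⊓ ordGe k D (d + 1) : Submodule k (MvPolynomial (Fin D) k)) := by
  have : Module.Finite k (U ⊓ ordGe k D d : Submodule k (MvPolynomial (Fin D) k)) :=
    Submodule.finiteDimensional_of_le inf_le_left
  have h := LinearMap.finrank_range_add_finrank_ker
    ((homogeneousComponent (R := k) (σ := Fin D) d).domRestrict (U ⊓ ordGe k D d))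
  rw [← h]
  congr 1
  · rw [← hw, LinearMap.range_domRestrict]
  · refine LinearEquiv.finrank_eq (LinearEquiv.symm ?_)
    refine LinearEquiv.ofBijective
      (LinearMap.codRestrict _ (LinearMap.codRestrict (U ⊓ ordGe k D d)
        (U ⊓ ordGe k D (d + 1) : Submodule k (MvPolynomial (Fin D) k)).subtype ?_) ?_) ⟨?_, ?_⟩
    · rintro ⟨g, hg1, hg2⟩
      exact ⟨hg1, fun e he => hg2 e (by omega)⟩
    · rintro ⟨g, hg1, hg2⟩
      rw [LinearMap.mem_ker]
      exact hg2 d (by omega)
    · rintro ⟨g, hg⟩ ⟨g', hg'⟩ h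
      have := congrArg (fun x => ((x : (U ⊓ ordGe k D d : Submodule k _)) :
        MvPolynomial (Fin D) k)) (congrArg Subtype.val h)
      exact Subtype.ext this
    · rintro ⟨⟨g, hg1, hg2⟩, hg3⟩
      refine ⟨⟨g, hg1, ?_⟩, rfl⟩
      intro e he
      rcases Nat.lt_or_ge e d with h | h
      · exact hg2 e h
      · have : e = d := by omega
        rw [this]
        exact LinearMap.mem_ker.1 hg3

theorem finrank_le_sum {D s : ℕ} (U : Submodule k (MvPolynomial (Fin D) k))
    (hU : U ≤ polyLt k D s) (w : ℕ → ℕ)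
    (hw : ∀ d, d < s →
      finrank k (Submodule.map (homogeneousComponent d) (U ⊓ ordGe k D d)) ≤ w d) :
    finrank k U ≤ ∑ d ∈ Finset.range s, w d := by
  have : Module.Finite k U := Submodule.finiteDimensional_of_le hU
  have key : ∀ j, j ≤ s → finrank k (U ⊓ ordGe k D (s - j) : Submodule k _) ≤
      ∑ d ∈ Finset.Ico (s - j) s, w d := by
    intro j
    induction j with
    | zero =>
      intro _
      have h : (U ⊓ ordGe k D (s - 0) : Submodule k (MvPolynomial (Fin D) k)) = ⊥ := by
        rw [eq_bot_iff, ← polyLt_inf_ordGe (k := k) (D := D) (s := s)]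
        exact inf_le_inf hU le_rfl
      rw [h]
      simp
    | succ j ih =>
      intro hj
      have h1 := ih (by omega)
      have e : s - j = s - (j + 1) + 1 := by omega
      have h2 := finrank_step U (s - (j + 1)) _ rfl
      rw [h2, ← e, Finset.sum_eq_sum_Ico_succ_bot (by omega), ← e]
      exact add_le_add (hw _ (by omega)) h1
  have h := key s le_rfl
  have e : (U ⊓ ordGe k D (s - s) : Submodule k (MvPolynomial (Fin D) k)) = U := by
    rw [inf_eq_left]
    intro g _ d hd
    omega
  rw [e, Nat.sub_self, ← Finset.range_eq_Ico] at h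
  exact h

theorem finrank_polyLt (E s : ℕ) :
    finrank k (polyLt k (E + 1) s) = ∑ d ∈ Finset.range s, (d + E).choose E := by
  have key : ∀ j, j ≤ s → finrank k (polyLt k (E + 1) s ⊓ ordGe k (E + 1) (s - j) :
      Submodule k _) = ∑ d ∈ Finset.Ico (s - j) s, (d + E).choose E := by
    intro j
    induction j with
    | zero =>
      intro _
      rw [Nat.sub_zero, polyLt_inf_ordGe]
      simp
    | succ j ih =>
      intro hj
      have h1 := ih (by omega)
      have e : s - j = s - (j + 1) + 1 := by omega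
      have h2 := finrank_step (polyLt k (E + 1) s) (s - (j + 1)) _ rfl
      have hmap : Submodule.map (homogeneousComponent (s - (j + 1)))
          (polyLt k (E + 1) s ⊓ ordGe k (E + 1) (s - (j + 1))) =
          homogeneousSubmodule (Fin (E + 1)) k (s - (j + 1)) := by
        apply le_antisymm
        · rintro _ ⟨g, -, rfl⟩
          exact homogeneousComponent_mem _ g
        · intro g hg
          refine ⟨g, ⟨?_, ?_⟩, ?_⟩
          · intro d hd
            rw [homogeneousComponent_of_mem hg, if_neg (by omega)]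
          · intro d hd
            rw [homogeneousComponent_of_mem hg, if_neg (by omega)]
          · rw [homogeneousComponent_of_mem hg, if_pos rfl]
      rw [h2, ← e, Finset.sum_eq_sum_Ico_succ_bot (by omega), ← e, h1, hmap, finrank_homog]
  have h := key s le_rfl
  have e : (polyLt k (E + 1) s ⊓ ordGe k (E + 1) (s - s) :
      Submodule k (MvPolynomial (Fin (E + 1)) k)) = polyLt k (E + 1) s := by
    rw [inf_eq_left]
    intro g _ d hd
    omega
  rw [e, Nat.sub_self, ← Finset.range_eq_Ico] at h
  exact h

theorem sum_choose (E s : ℕ) :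
    ∑ d ∈ Finset.range s, (d + E).choose E = (s + E).choose (E + 1) := by
  induction s with
  | zero => simp
  | succ s ih =>
    rw [Finset.sum_range_succ, ih]
    have e : s + 1 + E = (s + E) + 1 := by ring
    rw [e, Nat.choose_succ_succ]
    ring

/-- the number of monomials of degree less than `s` -/
theorem finrank_polyLt_eq {D : ℕ} (hD : 1 ≤ D) (s : ℕ) :
    finrank k (polyLt k D s) = (s + D - 1).choose D := by
  obtain ⟨E, rfl⟩ : ∃ E, D = E + 1 := ⟨D - 1, by omega⟩
  rw [finrank_polyLt, sum_choose]
  rfl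

theorem sum_shift (E δ s : ℕ) :
    ∑ d ∈ Finset.range s, (if δ ≤ d then (d - δ + E).choose E else 0) =
      (s - δ + E).choose (E + 1) := by
  induction s with
  | zero => simp
  | succ s ih =>
    rw [Finset.sum_range_succ, ih]
    split_ifs with h
    · have e1 : s + 1 - δ + E = (s - δ + E) + 1 := by omega
      rw [e1, Nat.choose_succ_succ]
      ring
    · have e1 : s - δ = 0 := by omega
      have e2 : s + 1 - δ = 0 := by omega
      rw [e1, e2, add_zero]

/-- **section 3, polynomial part**: `f` a form of degree `M` which divides the power `ρ` of the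
lowest form of every element of `U`, and `M₁ ≤ ⌈M / ρ⌉` -/
theorem finrank_le_of_dvd_low {D : ℕ} (hD : 1 ≤ D) {f : MvPolynomial (Fin D) k} {M : ℕ}
    (hf : f.IsHomogeneous M) (hf0 : f ≠ 0) {ρ : ℕ} (hρ : 1 ≤ ρ) {s M₁ : ℕ}
    (hM₁ : M₁ * ρ < M + ρ) (U : Submodule k (MvPolynomial (Fin D) k)) (hU : U ≤ polyLt k D s)
    (hdiv : ∀ g ∈ U, ∀ d, (∀ e, e < d → homogeneousComponent e g = 0) →
      homogeneousComponent d g ≠ 0 → f ∣ homogeneousComponent d g ^ ρ) :
    finrank k U ≤ (s - M₁ + D - 1).choose D := by
  obtain ⟨E, rfl⟩ : ∃ E, D = E + 1 := ⟨D - 1, by omega⟩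
  obtain ⟨q, hq0, hq1, hq2⟩ := exists_root_divisor hf0 hρ
  set δ := q.totalDegree with hδ
  have hδM : M ≤ ρ * δ := by
    obtain ⟨t, ht⟩ := hq1
    have h0 : q ^ ρ ≠ 0 := pow_ne_zero _ hq0
    have ht0 : t ≠ 0 := by
      rintro rfl
      rw [mul_zero] at ht
      exact h0 ht
    have h1 : f.totalDegree = M := hf.totalDegree hf0
    have h2 : (q ^ ρ).totalDegree ≤ ρ * δ := totalDegree_pow q ρ
    rw [ht, totalDegree_mul_of_isDomain hf0 ht0, h1] at h2
    omega
  have hδ1 : M₁ ≤ δ := by
    by_contra hcon
    have h1 : δ + 1 ≤ M₁ := by omega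
    have h2 : (δ + 1) * ρ ≤ M₁ * ρ := Nat.mul_le_mul_right _ h1
    have h3 : (δ + 1) * ρ = ρ * δ + ρ := by ring
    omega
  have h := finrank_le_sum U hU (fun d => if δ ≤ d then (d - δ + E).choose E else 0) ?_
  · refine h.trans ?_
    rw [sum_shift]
    have e : s - M₁ + (E + 1) - 1 = s - M₁ + E := by omega
    rw [e]
    exact Nat.choose_le_choose _ (by omega)
  · intro d _
    -- the lowest forms of degree d
    have hmem : ∀ h ∈ Submodule.map (homogeneousComponent d) (U ⊓ ordGe k (E + 1) d),
        h ≠ 0 → δ ≤ d ∧ ∃ t : MvPolynomial (Fin (E + 1)) k, t.IsHomogeneous (d - δ) ∧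
          h = homogeneousComponent δ q * t := by
      rintro _ ⟨g, ⟨hg1, hg2⟩, rfl⟩ h0
      exact dvd_form (homogeneousComponent_isHomogeneous d g) h0 (hq2 _ (hdiv g hg1 d hg2 h0))
    split_ifs with hd
    · rw [← finrank_homog (k := k)]
      have := finite_homog (k := k) (E + 1) (d - δ)
      have hle : Submodule.map (homogeneousComponent d) (U ⊓ ordGe k (E + 1) d) ≤
          Submodule.map (LinearMap.mulLeft k (homogeneousComponent δ q))
            (homogeneousSubmodule (Fin (E + 1)) k (d - δ)) := by
        intro h hh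
        by_cases h0 : h = 0
        · rw [h0]; exact Submodule.zero_mem _
        obtain ⟨-, t, ht, e⟩ := hmem h hh h0
        exact ⟨t, ht, by rw [e]; rfl⟩
      refine (Submodule.finrank_mono hle).trans ?_
      exact Submodule.finrank_map_le _ _
    · have hbot : Submodule.map (homogeneousComponent d) (U ⊓ ordGe k (E + 1) d) = ⊥ := by
        rw [eq_bot_iff]
        intro h hh
        rw [Submodule.mem_bot]
        by_contra h0
        exact hd (hmem h hh h0).1
      rw [hbot]
      simp

/-- the same as a lower bound for the rank of a linear map -/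
theorem rank_ge_of_dvd_low {D : ℕ} (hD : 1 ≤ D) {f : MvPolynomial (Fin D) k} {M : ℕ}
    (hf : f.IsHomogeneous M) (hf0 : f ≠ 0) {ρ : ℕ} (hρ : 1 ≤ ρ) {s M₁ : ℕ}
    (hM₁ : M₁ * ρ < M + ρ) {W : Type*} [AddCommGroup W] [Module k W] [Module.Finite k W]
    (φ : MvPolynomial (Fin D) k →ₗ[k] W)
    (hdiv : ∀ g ∈ polyLt k D s, φ g = 0 → ∀ d, (∀ e, e < d → homogeneousComponent e g = 0) →
      homogeneousComponent d g ≠ 0 → f ∣ homogeneousComponent d g ^ ρ) :
    (s + D - 1).choose D - (s - M₁ + D - 1).choose D ≤ finrank k W := by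
  have h1 := finrank_le_of_dvd_low hD hf hf0 hρ hM₁ (polyLt k D s ⊓ LinearMap.ker φ)
    inf_le_left (fun g hg d h2 h3 => hdiv g hg.1 (LinearMap.mem_ker.1 hg.2) d h2 h3)
  have h2 := LinearMap.finrank_range_add_finrank_ker (φ.domRestrict (polyLt k D s))
  rw [finrank_polyLt_eq hD] at h2
  have h3 : finrank k (LinearMap.ker (φ.domRestrict (polyLt k D s))) =
      finrank k (polyLt k D s ⊓ LinearMap.ker φ : Submodule k _) := by
    have e : (polyLt k D s ⊓ LinearMap.ker φ : Submodule k (MvPolynomial (Fin D) k)) =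
        Submodule.map (polyLt k D s).subtype (LinearMap.ker (φ.domRestrict (polyLt k D s))) := by
      rw [LinearMap.ker_domRestrict]
      exact (Submodule.map_comap_subtype _ _).symm
    rw [e]
    exact (Submodule.finrank_map_subtype_eq _ _).symm
  have h4 : finrank k (LinearMap.range (φ.domRestrict (polyLt k D s))) ≤ finrank k W :=
    Submodule.finrank_le _
  omega

end Dim

end Pool.Agent.ALL
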