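import Mathlib

/-!
# The numbers of the count with the ramification divisor

`a` is the growth function of the powers of a finite dimensional space `V`. Two moves are allowed:
the count of the points (`MoveA`) and the count with the divisor (`MoveB`). Neither can be possible
for all large powers `V ^ m` (in any mixture).
-/

set_option autoImplicit false

namespace Pool.Agent.ALL.Num

open Finset

/-- the growth: a function with polynomial growth cannot be multiplied too often -/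
theorem growth_contra (n C m₀ : ℕ) (a : ℕ → ℕ) (h1 : ∀ s, 1 ≤ a s)
    (hC : ∀ s, a s ≤ C * (s + 1) ^ n) (ε : ℝ) (hε : 0 < ε)
    (H : ∀ m : ℕ, m₀ ≤ m → ∃ L : ℕ, 2 ≤ L ∧ (1 + ε) * (L : ℝ) ^ n * a m ≤ a (m * L)) : False := by
  have hit : ∀ k : ℕ, ∃ s : ℕ, m₀ + 1 ≤ s ∧
      (1 + ε) ^ k * ((a (m₀ + 1) : ℝ) / ((m₀ + 1 : ℕ) : ℝ) ^ n) ≤ (a s : ℝ) / (s : ℝ) ^ n := by
    intro k
    induction k with
    | zero => exact ⟨m₀ + 1, le_rfl, by simp⟩
    | succ k ih =>
      obtain ⟨s, hs, hs'⟩ := ih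
      obtain ⟨L, hL, hL'⟩ := H s (by omega)
      refine ⟨s * L, by nlinarith, ?_⟩
      have hsp : (0 : ℝ) < s := by
        have : 0 < s := by omega
        exact_mod_cast this
      have hLp : (0 : ℝ) < L := by
        have : 0 < L := by omega
        exact_mod_cast this
      have e : ((s * L : ℕ) : ℝ) ^ n = (s : ℝ) ^ n * (L : ℝ) ^ n := by
        rw [Nat.cast_mul, mul_pow]
      have h2 : (1 + ε) * ((a s : ℝ) / (s : ℝ) ^ n) ≤ (a (s * L) : ℝ) / ((s * L : ℕ) : ℝ) ^ n := by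
        rw [e, le_div_iff₀ (by positivity)]
        calc (1 + ε) * ((a s : ℝ) / (s : ℝ) ^ n) * ((s : ℝ) ^ n * (L : ℝ) ^ n)
            = (1 + ε) * (L : ℝ) ^ n * a s := by field_simp
          _ ≤ a (s * L) := hL'
      refine le_trans ?_ h2
      rw [pow_succ, mul_comm ((1 + ε) ^ k), mul_assoc]
      exact mul_le_mul_of_nonneg_left hs' (by linarith)
  have hpos : 0 < (a (m₀ + 1) : ℝ) / ((m₀ + 1 : ℕ) : ℝ) ^ n := by
    have h2 : (0 : ℝ) < a (m₀ + 1) := by exact_mod_cast h1 (m₀ + 1)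
    positivity
  have hbd : ∀ s : ℕ, 1 ≤ s → (a s : ℝ) / (s : ℝ) ^ n ≤ C * 2 ^ n := by
    intro s hs
    have h3 : (0 : ℝ) < s := by exact_mod_cast hs
    rw [div_le_iff₀ (by positivity), mul_assoc, ← mul_pow]
    refine le_trans (b := (C : ℝ) * ((s : ℝ) + 1) ^ n) (by exact_mod_cast hC s) ?_
    have : (1 : ℝ) ≤ s := by exact_mod_cast hs
    gcongr
    linarith
  obtain ⟨k, hk⟩ := pow_unbounded_of_one_lt
    (C * 2 ^ n / ((a (m₀ + 1) : ℝ) / ((m₀ + 1 : ℕ) : ℝ) ^ n)) (by linarith : 1 < 1 + ε)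
  obtain ⟨s, hs, hs'⟩ := hit k
  have := hbd s (by omega)
  rw [div_lt_iff₀ hpos] at hk
  linarith

/-- `(s + 1) ^ n ≤ n! binom(s + n, n)` -/
theorem pow_le_fact_mul_choose (n s : ℕ) : (s + 1) ^ n ≤ n.factorial * (s + n).choose n := by
  rw [← Nat.ascFactorial_eq_factorial_mul_choose]
  exact Nat.pow_succ_le_ascFactorial (s + 1) n

/-- a shift does not matter -/
theorem exists_large (n c : ℕ) {η : ℝ} (hη : 0 < η) :
    ∃ J₀ : ℕ, ∀ J : ℕ, J₀ ≤ J → ((c + J : ℕ) : ℝ) ^ n ≤ (1 + η) * (J : ℝ) ^ n := by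
  have h1 : Filter.Tendsto (fun J : ℕ => (1 + (c : ℝ) / J) ^ n) Filter.atTop (nhds 1) := by
    have h := ((tendsto_const_div_atTop_nhds_zero_nat (c : ℝ)).const_add 1).pow n
    simpa using h
  obtain ⟨J₀, hJ₀⟩ := ((h1.eventually (gt_mem_nhds (by linarith : (1 : ℝ) < 1 + η))).and
    (Filter.eventually_gt_atTop 0)).exists_forall_of_atTop
  refine ⟨J₀, fun J hJ => ?_⟩
  obtain ⟨h2, h3⟩ := hJ₀ J hJ
  have hJp : (0 : ℝ) < J := by exact_mod_cast h3
  have e : ((c + J : ℕ) : ℝ) = (1 + (c : ℝ) / J) * J := by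
    push_cast
    field_simp
    ring
  rw [e, mul_pow]
  exact mul_le_mul_of_nonneg_right h2.le (by positivity)

/-- the count of the points, for `V ^ m` -/
def MoveA (n : ℕ) (a : ℕ → ℕ) (m : ℕ) : Prop :=
  ∃ c : ℕ, ∀ s : ℕ, c < s →
    a m * ((2 ^ n * n.factorial + 1) * (s - c - 1 + n).choose n) ≤ a (m * (2 * s - 1))

/-- the count with the divisor, for `V ^ m`: `D` parameters, rank `r`, degree `t₀` of the divisor,
order at least `M` -/
def MoveB (D r t₀ M : ℕ) (a : ℕ → ℕ) (m : ℕ) : Prop :=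
  ∃ s₀ : ℕ, ∀ s : ℕ, s₀ ≤ s →
    a m * (((s + D - 1).choose D - (s - M + D - 1).choose D) * (s - 1 + r).choose r)
      + a (m * (4 * s - 1 - t₀)) ≤ a (m * (4 * s - 1))

theorem moveA_step (n : ℕ) (a : ℕ → ℕ) (m : ℕ) (h : MoveA n a m) :
    ∃ L : ℕ, 2 ≤ L ∧
      (1 + 1 / (4 * (2 ^ n * n.factorial : ℕ) : ℝ)) * (L : ℝ) ^ n * a m ≤ a (m * L) := by
  obtain ⟨c, hc⟩ := h
  set E : ℕ := 2 ^ n * n.factorial with hE
  have hE1 : (1 : ℝ) ≤ E := by
    have : 1 ≤ E := Nat.one_le_iff_ne_zero.2 (by positivity)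
    exact_mod_cast this
  obtain ⟨J₀, hJ₀⟩ := exists_large n c (η := 1 / (4 * (E : ℝ))) (by positivity)
  set s : ℕ := c + (J₀ + 2) with hs
  have h1 := hc s (by omega)
  have h2 := hJ₀ (J₀ + 2) (by omega)
  have e1 : s - c - 1 = J₀ + 1 := by omega
  rw [e1] at h1
  refine ⟨2 * s - 1, by omega, ?_⟩
  have h3 := pow_le_fact_mul_choose n (J₀ + 1)
  have h4 : ((a m * ((E + 1) * (J₀ + 1 + n).choose n) : ℕ) : ℝ) ≤ a (m * (2 * s - 1)) := by
    exact_mod_cast h1
  refine le_trans ?_ h4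
  push_cast
  have h5 : ((2 * s - 1 : ℕ) : ℝ) ^ n ≤ 2 ^ n * ((c + (J₀ + 2) : ℕ) : ℝ) ^ n := by
    rw [← mul_pow]
    refine pow_le_pow_left₀ (Nat.cast_nonneg _) ?_ n
    have : 2 * s - 1 ≤ 2 * (c + (J₀ + 2)) := by omega
    exact_mod_cast this
  have h6 : ((J₀ + 2 : ℕ) : ℝ) ^ n ≤ n.factorial * ((J₀ + 1 + n).choose n : ℝ) := by
    have e : J₀ + 2 = (J₀ + 1) + 1 := rfl
    rw [e]
    exact_mod_cast h3
  have hEr : (E : ℝ) = 2 ^ n * n.factorial := by rw [hE]; push_cast; ring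
  have hη : (1 + 1 / (4 * (E : ℝ))) * (1 + 1 / (4 * (E : ℝ))) ≤ 1 + 1 / E := by
    have hx : (1 : ℝ) / (4 * E) ≤ 1 := by
      rw [div_le_one (by positivity)]; linarith
    have hx0 : (0 : ℝ) ≤ 1 / (4 * E) := by positivity
    have e : (1 : ℝ) / E = 4 * (1 / (4 * E)) := by field_simp
    rw [e]
    nlinarith
  have ha : (0 : ℝ) ≤ a m := Nat.cast_nonneg _
  have hch : (0 : ℝ) ≤ ((J₀ + 1 + n).choose n : ℝ) := Nat.cast_nonneg _
  calc (1 + 1 / (4 * (E : ℝ))) * ((2 * s - 1 : ℕ) : ℝ) ^ n * a m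
      ≤ (1 + 1 / (4 * (E : ℝ))) * (2 ^ n * ((1 + 1 / (4 * (E : ℝ))) *
          (n.factorial * ((J₀ + 1 + n).choose n : ℝ)))) * a m := by
        gcongr
        refine h5.trans ?_
        refine mul_le_mul_of_nonneg_left (h2.trans ?_) (by positivity)
        exact mul_le_mul_of_nonneg_left h6 (by positivity)
    _ = ((1 + 1 / (4 * (E : ℝ))) * (1 + 1 / (4 * (E : ℝ)))) *
          ((2 ^ n * n.factorial) * ((J₀ + 1 + n).choose n : ℝ)) * a m := by ring
    _ ≤ (1 + 1 / E) * ((2 ^ n * n.factorial) * ((J₀ + 1 + n).choose n : ℝ)) * a m := by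
        gcongr
    _ = a m * ((E + 1) * ((J₀ + 1 + n).choose n : ℝ)) := by
        rw [← hEr]
        field_simp

/-- the difference of two numbers of monomials -/
theorem choose_diff (D M s : ℕ) (hD : 1 ≤ D) (hs : M ≤ s) :
    M * (s - M + D - 1).choose (D - 1) ≤ (s + D - 1).choose D - (s - M + D - 1).choose D := by
  obtain ⟨E, rfl⟩ : ∃ E, D = E + 1 := ⟨D - 1, by omega⟩
  obtain ⟨u, rfl⟩ : ∃ u, s = u + M := ⟨s - M, by omega⟩
  have e1 : u + M - M + (E + 1) - 1 = u + E := by omega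
  have e2 : u + M + (E + 1) - 1 = u + M + E := by omega
  have e3 : E + 1 - 1 = E := by omega
  rw [e1, e2, e3]
  have key : M * (u + E).choose E + (u + E).choose (E + 1) ≤ (u + M + E).choose (E + 1) := by
    clear hs hD e1 e2 e3
    induction M with
    | zero => simp
    | succ M ih =>
      have e : u + (M + 1) + E = (u + M + E) + 1 := by ring
      rw [e, Nat.choose_succ_succ]
      have h : (u + E).choose E ≤ (u + M + E).choose E := Nat.choose_le_choose _ (by omega)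
      nlinarith
  omega

/-- the sum of powers -/
theorem sum_pow_ge (k J : ℕ) : (J : ℝ) ^ (k + 1) ≤ (k + 1) * ∑ i ∈ range (J + 1), (i : ℝ) ^ k := by
  induction J with
  | zero => simp; positivity
  | succ J ih =>
    rw [sum_range_succ, mul_add]
    have h : ((J + 1 : ℕ) : ℝ) ^ (k + 1) ≤ (J : ℝ) ^ (k + 1) + (k + 1) * ((J + 1 : ℕ) : ℝ) ^ k := by
      have hb : (0 : ℝ) ≤ J := Nat.cast_nonneg _
      have hx : (0 : ℝ) < ((J + 1 : ℕ) : ℝ) := by positivity
      have hB := one_add_mul_le_pow (a := -(1 / ((J + 1 : ℕ) : ℝ))) (by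
        have : (1 : ℝ) / ((J + 1 : ℕ) : ℝ) ≤ 1 := by
          rw [div_le_one hx]
          push_cast
          linarith
        linarith) (k + 1)
      have e : (J : ℝ) = ((J + 1 : ℕ) : ℝ) * (1 + -(1 / ((J + 1 : ℕ) : ℝ))) := by
        push_cast
        field_simp
        ring
      rw [e, mul_pow]
      have h3 := mul_le_mul_of_nonneg_left hB (pow_nonneg hx.le (k + 1))
      have e2 : ((J + 1 : ℕ) : ℝ) ^ (k + 1) * (1 + ((k + 1 : ℕ) : ℝ) * -(1 / ((J + 1 : ℕ) : ℝ)))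
          = ((J + 1 : ℕ) : ℝ) ^ (k + 1) - (k + 1) * ((J + 1 : ℕ) : ℝ) ^ k := by
        rw [pow_succ]
        push_cast
        field_simp
        ring
      rw [e2] at h3
      linarith
    linarith

/-- telescoping with gaps -/
theorem telescope (f : ℕ → ℕ) (u v : ℕ → ℕ) (hf : Monotone f) (huv : ∀ i, v i ≤ u (i + 1))
    (g : ℕ → ℕ) (hg : ∀ i, g i + f (u i) ≤ f (v i)) (J : ℕ) :
    ∑ i ∈ range (J + 1), g i ≤ f (v J) := by
  induction J with
  | zero => simpa using le_trans (Nat.le_add_right _ _) (hg 0)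
  | succ J ih =>
    rw [sum_range_succ]
    have h1 := hg (J + 1)
    have h2 := hf (huv J)
    omega

theorem moveB_step (D r t₀ : ℕ) (hD : 1 ≤ D) (ht : 1 ≤ t₀) (a : ℕ → ℕ) (ha : Monotone a) (m : ℕ)
    (h : MoveB D r t₀ (4 ^ (D + r - 1) * (t₀ + 3) * (D + r).factorial + 1) a m) :
    ∃ L : ℕ, 2 ≤ L ∧
      (1 + 1 / (4 * (4 ^ (D + r - 1) * (t₀ + 3) * (D + r).factorial : ℕ) : ℝ)) *
        (L : ℝ) ^ (D + r) * a m ≤ a (m * L) := by
  obtain ⟨s₀, hs₀⟩ := h
  obtain ⟨E, rfl⟩ : ∃ E, D = E + 1 := ⟨D - 1, by omega⟩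
  have en : E + 1 + r - 1 = E + r := by omega
  rw [en] at hs₀ ⊢
  have en2 : E + 1 + r = E + r + 1 := by ring
  rw [en2] at hs₀ ⊢
  set M : ℕ := 4 ^ (E + r) * (t₀ + 3) * (E + r + 1).factorial with hM
  set q : ℕ := (t₀ + 3) / 4 with hq
  have hq1 : 1 ≤ q := by omega
  have hq2 : t₀ ≤ 4 * q := by omega
  have hq3 : 4 * q ≤ t₀ + 3 := by omega
  have hM1 : (1 : ℝ) ≤ M := by
    have : 1 ≤ M := Nat.one_le_iff_ne_zero.2 (by positivity)
    exact_mod_cast this
  set c : ℕ := s₀ + M + 1 + t₀ with hc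
  obtain ⟨J₀, hJ₀⟩ := exists_large (E + r + 1) c (η := 1 / (4 * (M : ℝ))) (by positivity)
  set J : ℕ := J₀ + 1 with hJ
  have hlarge := hJ₀ J (by omega)
  -- the sum
  have hsum : ∑ i ∈ range (J + 1),
      a m * (((M + 1) * ((i * q + 1) ^ E)) * ((i * q + 1) ^ r)) ≤
        E.factorial * r.factorial * a (m * (4 * ((c + J) * q) - 1)) := by
    have ht := telescope (fun x => a (m * x)) (fun i => 4 * ((c + i) * q) - 1 - t₀)
      (fun i => 4 * ((c + i) * q) - 1) (fun x y hxy => ha (Nat.mul_le_mul_left m hxy))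
      (fun i => by
        have e : (c + (i + 1)) * q = (c + i) * q + q := by ring
        simp only [e]
        omega)
      (fun i => a m * ((((c + i) * q + (E + 1) - 1).choose (E + 1)
        - ((c + i) * q - (M + 1) + (E + 1) - 1).choose (E + 1)) * ((c + i) * q - 1 + r).choose r))
      (fun i => by
        refine hs₀ ((c + i) * q) ?_
        have : c + i ≤ (c + i) * q := Nat.le_mul_of_pos_right _ (by omega)
        omega) J
    refine le_trans ?_ (Nat.mul_le_mul_left _ ht)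
    rw [mul_sum]
    refine sum_le_sum fun i _ => ?_
    have hci : c + i * q ≤ (c + i) * q := by
      rw [add_mul]
      have : c ≤ c * q := Nat.le_mul_of_pos_right _ (by omega)
      omega
    have h1 := choose_diff (E + 1) (M + 1) ((c + i) * q) (by omega) (by omega)
    have e1 : (c + i) * q - (M + 1) + (E + 1) - 1 = (c + i) * q - (M + 1) + E := by omega
    have e2 : E + 1 - 1 = E := by omega
    rw [e2, e1] at h1
    rw [e1]
    have h2 := pow_le_fact_mul_choose E ((c + i) * q - (M + 1))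
    have h3 := pow_le_fact_mul_choose r ((c + i) * q - 1)
    have h4 : i * q + 1 ≤ (c + i) * q - (M + 1) + 1 := by omega
    have h5 : i * q + 1 ≤ (c + i) * q - 1 + 1 := by omega
    have h6 := Nat.pow_le_pow_left h4 E
    have h7 := Nat.pow_le_pow_left h5 r
    calc a m * (((M + 1) * ((i * q + 1) ^ E)) * ((i * q + 1) ^ r))
        ≤ a m * (((M + 1) * (E.factorial * ((c + i) * q - (M + 1) + E).choose E)) *
            (r.factorial * ((c + i) * q - 1 + r).choose r)) := by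
          refine Nat.mul_le_mul_left _ (Nat.mul_le_mul (Nat.mul_le_mul_left _ ?_) ?_)
          · exact h6.trans h2
          · exact h7.trans h3
      _ = E.factorial * r.factorial * (a m * (((M + 1) * ((c + i) * q - (M + 1) + E).choose E) *
            ((c + i) * q - 1 + r).choose r)) := by ring
      _ ≤ _ := by
          refine Nat.mul_le_mul_left _ (Nat.mul_le_mul_left _ (Nat.mul_le_mul_right _ ?_))
          exact h1
  refine ⟨4 * ((c + J) * q), ?_, ?_⟩
  · have : c + J ≤ (c + J) * q := Nat.le_mul_of_pos_right _ (by omega)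
    omega
  have hmono : a (m * (4 * ((c + J) * q) - 1)) ≤ a (m * (4 * ((c + J) * q))) :=
    ha (Nat.mul_le_mul_left m (Nat.sub_le _ _))
  have hfac : E.factorial * r.factorial ≤ (E + r).factorial :=
    Nat.le_of_dvd (Nat.factorial_pos _) (Nat.factorial_mul_factorial_dvd_factorial_add E r)
  -- real form of the sum
  have hR : (a m : ℝ) * ((M + 1) * ((q : ℝ) ^ (E + r) * ∑ i ∈ range (J + 1), (i : ℝ) ^ (E + r))) ≤
      ((E + r).factorial : ℝ) * a (m * (4 * ((c + J) * q))) := by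
    have h1 : ((∑ i ∈ range (J + 1),
        a m * (((M + 1) * ((i * q + 1) ^ E)) * ((i * q + 1) ^ r)) : ℕ) : ℝ) ≤
        ((E + r).factorial : ℝ) * a (m * (4 * ((c + J) * q))) := by
      refine le_trans (Nat.cast_le.2 hsum) ?_
      rw [Nat.cast_mul]
      refine mul_le_mul (by exact_mod_cast hfac) (by exact_mod_cast hmono) (Nat.cast_nonneg _)
        (Nat.cast_nonneg _)
    refine le_trans ?_ h1
    push_cast
    rw [mul_sum, mul_sum, mul_sum]
    refine sum_le_sum fun i _ => ?_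
    refine mul_le_mul_of_nonneg_left ?_ (Nat.cast_nonneg _)
    rw [mul_assoc ((M : ℝ) + 1), ← pow_add, ← mul_pow]
    refine mul_le_mul_of_nonneg_left ?_ (by positivity)
    refine pow_le_pow_left₀ (by positivity) ?_ _
    rw [mul_comm]
    linarith
  have hS := sum_pow_ge (E + r) J
  have hqp : (0 : ℝ) < q := by exact_mod_cast hq1
  -- multiply by n
  have hn : (((E + r : ℕ) : ℝ) + 1) * ((E + r).factorial : ℝ) = ((E + r + 1).factorial : ℝ) := by
    rw [Nat.factorial_succ]; push_cast; ring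
  have hR2 : (a m : ℝ) * ((M + 1) * ((q : ℝ) ^ (E + r) * (J : ℝ) ^ (E + r + 1))) ≤
      ((E + r + 1).factorial : ℝ) * a (m * (4 * ((c + J) * q))) := by
    have h1 : (a m : ℝ) * ((M + 1) * ((q : ℝ) ^ (E + r) * (J : ℝ) ^ (E + r + 1))) ≤
        (a m : ℝ) * ((M + 1) * ((q : ℝ) ^ (E + r) *
          ((((E + r : ℕ) : ℝ) + 1) * ∑ i ∈ range (J + 1), (i : ℝ) ^ (E + r)))) := by
      refine mul_le_mul_of_nonneg_left ?_ (Nat.cast_nonneg _)
      refine mul_le_mul_of_nonneg_left ?_ (by positivity)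
      exact mul_le_mul_of_nonneg_left hS (by positivity)
    refine h1.trans ?_
    have h2 := mul_le_mul_of_nonneg_left hR
      (by positivity : (0 : ℝ) ≤ ((E + r : ℕ) : ℝ) + 1)
    calc (a m : ℝ) * ((M + 1) * ((q : ℝ) ^ (E + r) *
          ((((E + r : ℕ) : ℝ) + 1) * ∑ i ∈ range (J + 1), (i : ℝ) ^ (E + r))))
        = (((E + r : ℕ) : ℝ) + 1) * ((a m : ℝ) * ((M + 1) * ((q : ℝ) ^ (E + r) *
            ∑ i ∈ range (J + 1), (i : ℝ) ^ (E + r)))) := by ring
      _ ≤ _ := h2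
      _ = ((E + r + 1).factorial : ℝ) * a (m * (4 * ((c + J) * q))) := by rw [← hn]; ring
  -- compare with L ^ n
  have hfp : (0 : ℝ) < ((E + r + 1).factorial : ℝ) := by exact_mod_cast Nat.factorial_pos _
  refine le_of_mul_le_mul_left ?_ hfp
  refine le_trans ?_ hR2
  have e3 : ((4 * ((c + J) * q) : ℕ) : ℝ) ^ (E + r + 1) =
      4 ^ (E + r) * (4 * q) * (q : ℝ) ^ (E + r) * ((c + J : ℕ) : ℝ) ^ (E + r + 1) := by
    push_cast
    rw [mul_pow, mul_pow, pow_succ (4 : ℝ), pow_succ (q : ℝ)]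
    ring
  have hMr : (M : ℝ) = 4 ^ (E + r) * (t₀ + 3) * ((E + r + 1).factorial : ℝ) := by
    rw [hM]; push_cast; ring
  have hq3r : 4 * (q : ℝ) ≤ t₀ + 3 := by exact_mod_cast hq3
  have hη : (1 + 1 / (4 * (M : ℝ))) * (1 + 1 / (4 * (M : ℝ))) * M ≤ M + 1 := by
    have hx : (1 : ℝ) / (4 * M) ≤ 1 := by
      rw [div_le_one (by positivity)]; linarith
    have hx0 : (0 : ℝ) ≤ 1 / (4 * M) := by positivity
    have e : (1 : ℝ) / (4 * M) * M = 1 / 4 := by field_simp
    nlinarith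
  rw [e3]
  calc ((E + r + 1).factorial : ℝ) * ((1 + 1 / (4 * (M : ℝ))) *
        (4 ^ (E + r) * (4 * q) * (q : ℝ) ^ (E + r) * ((c + J : ℕ) : ℝ) ^ (E + r + 1)) * a m)
      ≤ ((E + r + 1).factorial : ℝ) * ((1 + 1 / (4 * (M : ℝ))) *
        (4 ^ (E + r) * (t₀ + 3) * (q : ℝ) ^ (E + r) *
          ((1 + 1 / (4 * (M : ℝ))) * (J : ℝ) ^ (E + r + 1))) * a m) := by
        gcongr
    _ = ((1 + 1 / (4 * (M : ℝ))) * (1 + 1 / (4 * (M : ℝ))) * M) *
          ((q : ℝ) ^ (E + r) * (J : ℝ) ^ (E + r + 1)) * a m := by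
        rw [hMr]; ring
    _ ≤ (M + 1) * ((q : ℝ) ^ (E + r) * (J : ℝ) ^ (E + r + 1)) * a m := by
        gcongr
    _ = (a m : ℝ) * ((M + 1) * ((q : ℝ) ^ (E + r) * (J : ℝ) ^ (E + r + 1))) := by ring

/-- **no mixture of the two moves is possible for all large `m`** -/
theorem contradiction (D r t₀ C m₀ : ℕ) (hD : 1 ≤ D) (ht : 1 ≤ t₀) (a : ℕ → ℕ) (ha : Monotone a)
    (h1 : ∀ s, 1 ≤ a s) (hC : ∀ s, a s ≤ C * (s + 1) ^ (D + r))
    (H : ∀ m : ℕ, m₀ ≤ m → MoveA (D + r) a m ∨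
      MoveB D r t₀ (4 ^ (D + r - 1) * (t₀ + 3) * (D + r).factorial + 1) a m) : False := by
  set A : ℕ := 2 ^ (D + r) * (D + r).factorial with hA
  set B : ℕ := 4 ^ (D + r - 1) * (t₀ + 3) * (D + r).factorial with hB
  have hA1 : 1 ≤ A := Nat.one_le_iff_ne_zero.2 (by positivity)
  have hB1 : 1 ≤ B := Nat.one_le_iff_ne_zero.2 (by positivity)
  have hA2 : (0 : ℝ) < A := by exact_mod_cast hA1
  have hB2 : (0 : ℝ) < B := by exact_mod_cast hB1
  refine growth_contra (D + r) C m₀ a h1 hC (min (1 / (4 * (A : ℝ))) (1 / (4 * (B : ℝ))))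
    (lt_min (by positivity) (by positivity)) ?_
  intro m hm
  rcases H m hm with h | h
  · obtain ⟨L, hL, hL'⟩ := moveA_step _ a m h
    refine ⟨L, hL, le_trans ?_ hL'⟩
    rw [← hA]
    gcongr
    exact min_le_left _ _
  · obtain ⟨L, hL, hL'⟩ := moveB_step D r t₀ hD ht a ha m h
    refine ⟨L, hL, le_trans ?_ hL'⟩
    rw [← hB]
    gcongr
    exact min_le_right _ _

end Pool.Agent.ALL.Num
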